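import Pool.Agent.Helper21.MZVWindow

set_option autoImplicit false

namespace Pool.Agent.Results.MP_2000e9_nt.Window

open Pool.Agent.Helper21

/-- If the spaces of multiple zeta values of weights `0, ..., N` are linearly dependent over the
rationals, then so are the spaces of any `N + 1` weights `s 0 < ... < s N` lying in a short
window, `(3 * N ^ 2 + 2) * (s N - s 0) + 2 ≤ s 0`. -/
theorem result (N : ℕ) (hdep : ¬ iSupIndep (fun i : Fin (N + 1) => mzvSpace i))
    (s : Fin (N + 1) → ℕ) (hs : StrictMono s)
    (hwin : (3 * N ^ 2 + 2) * (s (Fin.last N) - s 0) + 2 ≤ s 0) :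
    ¬ iSupIndep (fun i => mzvSpace (s i)) :=
  fun h => hdep (window N s hs hwin h)

end Pool.Agent.Results.MP_2000e9_nt.Window
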